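import Pool.Agent.V11151.MedCox
import Pool.Agent.V11151.MedMono

/-!
# MP_b747c0_co: a mediangle graph whose monolith is not a convex subgraph of a product of complete
graphs and Coxeter graphs

The definitions (`Interval`, `IsConvex`, `IsGated`, `IsConvexEvenCycle`, `IsMediangle`, `SameHyp`,
`Transverse`, `IsMonolith`, `cartProd`, `coxGraph`, `IsCoxeterGraph`) are in
`Pool.Agent.V11151.MedDefs` and follow the problem file word by word.  Subgraphs `Y` are given by
their vertex sets (convex and gated subgraphs are induced).

The counterexample `X` is the chamber graph of the simplicial arrangement of the seven planes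
`x ± y = 0`, `y ± z = 0`, `x ± z = 0`, `x = 0` of `ℝ³` (the non-Fano arrangement): 32 vertices
(sign vectors), adjacent when they differ in one sign.  It is mediangle, and it is itself a
monolith; but it is not isomorphic to a convex subgraph of any Cartesian product (with any number
of factors) of complete graphs and Coxeter graphs, finite or infinite.
-/

namespace Pool.Agent.Results.MP_b747c0_co.MonolithCounterexample

open Pool.Agent.V11151.Med

universe u v

/-- Some finite mediangle graph `X` has a monolith `Y` that is not isomorphic to any convex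
subgraph of any Cartesian product of complete graphs and Coxeter graphs. -/
theorem result : ∃ (V : Type) (_ : Fintype V) (X : SimpleGraph V) (Y : Set V),
    IsMediangle X ∧ IsMonolith X Y ∧
    ∀ (I : Type u) (F : I → Type v) (H : ∀ i, SimpleGraph (F i)),
      (∀ i, H i = ⊤ ∨ IsCoxeterGraph (H i)) →
      ∀ S : Set (∀ i, F i), IsConvex (cartProd H) S →
        IsEmpty (X.induce Y ≃g (cartProd H).induce S) := by
  refine ⟨Fin 32, inferInstance, Gr, Set.univ, gr_mediangle, gr_monolith, ?_⟩
  intro I F H hH S hS
  refine ⟨fun ψ => ?_⟩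
  have E : Emb Gr H (fun x => (ψ ⟨x, trivial⟩ : ∀ i, F i)) := by
    refine ⟨?_, ?_, ?_⟩
    · intro x y hxy
      have h1 := ψ.injective (Subtype.ext hxy)
      exact congrArg Subtype.val h1
    · intro x y
      have h1 := ψ.map_adj_iff (v := ⟨x, trivial⟩) (w := ⟨y, trivial⟩)
      exact h1
    · have h1 : Set.range (fun x => (ψ ⟨x, trivial⟩ : ∀ i, F i)) = S := by
        ext p
        constructor
        · rintro ⟨x, rfl⟩
          exact (ψ ⟨x, trivial⟩).2
        · intro hp
          exact ⟨(ψ.symm ⟨p, hp⟩).1, by simp⟩
      rw [h1]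
      exact hS
  have hadj : ∀ x y : Fin 32, Gr.Adj x y ↔ D x y = 1 := fun _ _ => Iff.rfl
  have honly : ∀ x y z : Fin 32, (x ≠ y ∧ D x y ≠ 1 ∧ ∀ k : Fin 3, D (nb x k) y = 1 → nb x k = z) →
      Only Gr x y z := by
    rintro x y z ⟨h1, h2, h3⟩
    refine ⟨h1, h2, fun w hw1 hw2 => ?_⟩
    obtain ⟨k, rfl⟩ := nb_surj x w hw1
    exact h3 k hw2
  exact E.contradiction hH (x0 := 0) (x1 := 1) (x2 := 2) (x3 := 3) (x4 := 4) (x5 := 5) (x6 := 6)
    (x7 := 7) (x9 := 9) (x12 := 12) (x14 := 14)
    ((hadj _ _).mpr (by decide +kernel)) ((hadj _ _).mpr (by decide +kernel))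
    ((hadj _ _).mpr (by decide +kernel)) ((hadj _ _).mpr (by decide +kernel))
    ((hadj _ _).mpr (by decide +kernel)) ((hadj _ _).mpr (by decide +kernel))
    ((hadj _ _).mpr (by decide +kernel)) ((hadj _ _).mpr (by decide +kernel))
    ((hadj _ _).mpr (by decide +kernel)) ((hadj _ _).mpr (by decide +kernel))
    ((hadj _ _).mpr (by decide +kernel)) ((hadj _ _).mpr (by decide +kernel))
    ((hadj _ _).mpr (by decide +kernel))
    (honly _ _ _ (by decide +kernel)) (honly _ _ _ (by decide +kernel))
    (honly _ _ _ (by decide +kernel)) (honly _ _ _ (by decide +kernel))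
    (honly _ _ _ (by decide +kernel)) (honly _ _ _ (by decide +kernel))
    (honly _ _ _ (by decide +kernel)) (honly _ _ _ (by decide +kernel))
    (honly _ _ _ (by decide +kernel))
    (fun h => absurd ((hadj _ _).mp h) (by decide +kernel))
    (fun h => absurd ((hadj _ _).mp h) (by decide +kernel))
    (by decide) (by decide)

end Pool.Agent.Results.MP_b747c0_co.MonolithCounterexample
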